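import Pool.Agent.H19.Sq2

set_option autoImplicit false

namespace Pool.Agent.Results.MP_f97382_co.Power

open Pool.Agent.H19.Sq

/-- Lower bound for squares of `k`-degenerate graphs when `k - 2` is a power of two. -/
theorem result : ∀ e N : ℕ, ∃ D, N ≤ D ∧ ∃ (V : Type) (_ : Finite V) (G : SimpleGraph V),
      Degen (2 ^ e + 2) G ∧ MaxDeg G D ∧
        (((2 * (2 ^ e + 2) - 4) * (D - (2 ^ e + 2)) : ℕ) : ℕ∞) ≤ (sq G).chromaticNumber :=
  main2

end Pool.Agent.Results.MP_f97382_co.Power
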