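import Pool.Agent.H19.Sq2
import Pool.Agent.H19.Sq3

set_option autoImplicit false

namespace Pool.Agent.Results.MP_f97382_co.Prime

open Pool.Agent.H19.Sq

/-- Lower bound for squares of `k`-degenerate graphs from primes congruent to three modulo four. -/
theorem result : ∀ q m k N : ℕ, q.Prime → q = 4 * m + 3 → q + 3 ≤ 2 * k →
      ∃ D, N ≤ D ∧ ∃ (V : Type) (_ : Finite V) (G : SimpleGraph V), Degen k G ∧ MaxDeg G D ∧
        ∃ n : ℕ, (n : ℕ∞) ≤ (sq G).chromaticNumber ∧ q ^ 2 * (D - k) ≤ (q + 3) * n :=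
  main3

end Pool.Agent.Results.MP_f97382_co.Prime
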