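import Pool.Agent.H19.Sq2

set_option autoImplicit false

namespace Pool.Agent.Results.MP_f97382_co.Three

open Pool.Agent.H19.Sq

/-- Lower bound for the chromatic number of squares of three-degenerate graphs. -/
theorem result : ∀ D : ℕ, 9 ≤ D → ∃ (V : Type) (_ : Finite V) (G : SimpleGraph V),
      Degen 3 G ∧ MaxDeg G D ∧ ((28 * ((D - 3) / 6) : ℕ) : ℕ∞) ≤ (sq G).chromaticNumber :=
  main

end Pool.Agent.Results.MP_f97382_co.Three
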